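import Pool.Agent.Helper67.TMI.Crit

/-!
From finite sets of constraints to a minor-preserving map.
-/

set_option autoImplicit false

namespace Pool.Agent.Helper67.TMI

open Set Function Finset Pool.Agent.W994.AR Pool.Agent.Q112.BP Pool.Agent.Helper67.BEA

variable {A ι : Type} {ar : ι → ℕ}

/-- There is a minor-preserving map from the polymorphisms of `𝔸` to projections: every
polymorphism with finitely many (at least one) variables gets one of its variables, and
identification (permutation, addition) of variables is respected. -/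
def TrivialMinors (𝔸 : Str ι ar A) : Prop :=
  ∃ Φ : ∀ n : ℕ, ((Fin (n + 1) → A) → A) → Fin (n + 1),
    ∀ (m n : ℕ) (f : (Fin (m + 1) → A) → A) (π : Fin (m + 1) → Fin (n + 1)), PolA 𝔸 f →
      Φ n (fun y => f (y ∘ π)) = π (Φ m f)

/-- the functions and the constraints -/
structure Cst (𝔸 : Str ι ar A) where
  m : ℕ
  n : ℕ
  f : (Fin (m + 1) → A) → A
  π : Fin (m + 1) → Fin (n + 1)
  hf : PolA 𝔸 f

variable {𝔸 : Str ι ar A}

/-- If all finite sets of constraints can be satisfied, there is a minor-preserving map. -/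
theorem trivial_of_finite
    (h : ∀ (V : Type) [Finite V] [Nonempty V] (I : Type) [Finite I] (f : I → (V → A) → A),
      (∀ i, PolA 𝔸 (f i)) → ∀ π : I → V → V,
      ∃ φ : ((V → A) → A) → V, ∀ i, φ (fun y => f i (y ∘ π i)) = π i (φ (f i))) :
    TrivialMinors 𝔸 := by
  classical
  -- index set: functions and constraints
  let α : Type := (Σ n : ℕ, ((Fin (n + 1) → A) → A)) ⊕ Cst 𝔸
  let β : α → Type := fun a => match a with
    | Sum.inl p => Fin (p.1 + 1)
    | Sum.inr _ => Unit
  have hβ : ∀ a, Finite (β a) := by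
    rintro (p | c)
    · exact inferInstanceAs (Finite (Fin _))
    · exact inferInstanceAs (Finite Unit)
  have hfin : ∀ t : Finset α, ∃ g : (a : α) → β a, ∀ c : Cst 𝔸, Sum.inr c ∈ t →
      (g (Sum.inl ⟨c.n, fun y => c.f (y ∘ c.π)⟩) : Fin (c.n + 1)) =
        c.π (g (Sum.inl ⟨c.m, c.f⟩)) := by
    intro t
    -- the constraints in `t`
    let I : Type := {c : Cst 𝔸 // Sum.inr c ∈ t}
    have hI : Finite I := by
      apply Finite.of_injective (fun c : I => (⟨Sum.inr c.1, c.2⟩ : {a // a ∈ t}))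
      intro c c' hcc
      apply Subtype.ext
      have := congrArg Subtype.val hcc
      exact Sum.inr_injective this
    obtain ⟨N, hN⟩ : ∃ N : ℕ, ∀ c : I, c.1.m ≤ N ∧ c.1.n ≤ N := by
      have := Fintype.ofFinite I
      refine ⟨Finset.univ.sup (fun c : I => max c.1.m c.1.n), fun c => ?_⟩
      have := Finset.le_sup (f := fun c : I => max c.1.m c.1.n) (Finset.mem_univ c)
      exact ⟨(le_max_left _ _).trans this, (le_max_right _ _).trans this⟩
    let V := Fin (N + 1)
    -- retraction of `V` to the first `m + 1` elements and extension of functions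
    let ret : ∀ m : ℕ, V → Fin (m + 1) := fun m v => ⟨min v.val m, by omega⟩
    let emb : ∀ m : ℕ, Fin (m + 1) → V := fun m k => ⟨min k.val N, by omega⟩
    let hat : ∀ m : ℕ, ((Fin (m + 1) → A) → A) → (V → A) → A := fun m f y => f (y ∘ emb m)
    have hre : ∀ m, m ≤ N → ∀ k, ret m (emb m k) = k := by
      intro m hm k
      apply Fin.ext
      simp only [ret, emb]
      have := k.isLt
      omega
    obtain ⟨φ, hφ⟩ := h V (I ⊕ I ⊕ I)
      (Sum.elim (fun c => hat c.1.m c.1.f) (Sum.elim (fun c => hat c.1.m c.1.f)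
        (fun c => hat c.1.n (fun y => c.1.f (y ∘ c.1.π)))))
      (by
        rintro (c | c | c)
        · exact BEA.PolA.minor c.1.hf _
        · exact BEA.PolA.minor c.1.hf _
        · exact BEA.PolA.minor (BEA.PolA.minor c.1.hf _) _)
      (Sum.elim (fun c v => emb c.1.n (c.1.π (ret c.1.m v))) (Sum.elim
        (fun c v => emb c.1.m (ret c.1.m v)) (fun c v => emb c.1.n (ret c.1.n v))))
    refine ⟨fun a => match a with
      | Sum.inl p => ret p.1 (φ (hat p.1 p.2))
      | Sum.inr _ => (), fun c hc => ?_⟩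
    have h1 := hφ (Sum.inl ⟨c, hc⟩)
    have h2 := hφ (Sum.inr (Sum.inl ⟨c, hc⟩))
    have h3 := hφ (Sum.inr (Sum.inr ⟨c, hc⟩))
    simp only [Sum.elim_inl, Sum.elim_inr] at h1 h2 h3
    have hm := (hN ⟨c, hc⟩).1
    have hn := (hN ⟨c, hc⟩).2
    simp only at hm hn
    have e1 : (fun y : V → A => hat c.m c.f (y ∘ fun v => emb c.n (c.π (ret c.m v)))) =
        hat c.n (fun y => c.f (y ∘ c.π)) := by
      funext y
      show c.f _ = c.f _
      congr 1
      funext k
      simp only [Function.comp, hre c.m hm]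
    rw [e1] at h1
    show ret c.n (φ (hat c.n (fun y => c.f (y ∘ c.π)))) = c.π (ret c.m (φ (hat c.m c.f)))
    rw [h1, hre c.n hn]
  choose g hg using hfin
  obtain ⟨χ, hχ⟩ := Finset.rado_selection (β := β) g
  refine ⟨fun n f => (χ (Sum.inl ⟨n, f⟩) : Fin (n + 1)), fun m n f π hf => ?_⟩
  let c : Cst 𝔸 := ⟨m, n, f, π, hf⟩
  obtain ⟨t, hst, ht⟩ := hχ {Sum.inr c, Sum.inl ⟨n, fun y => f (y ∘ π)⟩, Sum.inl ⟨m, f⟩}
  have h1 := hg t c (hst (by simp))
  have h2 := ht (Sum.inl ⟨n, fun y => f (y ∘ π)⟩) (by simp)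
  have h3 := ht (Sum.inl ⟨m, f⟩) (by simp)
  show (χ (Sum.inl ⟨n, fun y => f (y ∘ π)⟩) : Fin (n + 1)) = π (χ (Sum.inl ⟨m, f⟩))
  rw [h2, h3]
  exact h1

/-- The chain criterion implies that there is a minor-preserving map to projections. -/
theorem ChainSel.trivialMinors {B ℓ : ℕ} {E : ∀ n : ℕ, ((Fin n → A) → A) → Finset (Fin n)}
    (h : ChainSel 𝔸 B ℓ E) : TrivialMinors 𝔸 :=
  trivial_of_finite (fun _ _ _ _ _ f hf π => h.finite_version f hf π)

/-- Conversely a minor-preserving map to projections gives a selection of one variable. -/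
theorem TrivialMinors.chainSel (h : TrivialMinors 𝔸) :
    ∃ E : ∀ n : ℕ, ((Fin n → A) → A) → Finset (Fin n), ChainSel 𝔸 1 1 E ∧
      ∀ n (f : (Fin (n + 1) → A) → A), (E (n + 1) f).Nonempty := by
  obtain ⟨Φ, hΦ⟩ := h
  refine ⟨fun n => match n with
    | 0 => fun _ => ∅
    | n + 1 => fun f => {Φ n f}, ⟨?_, ?_⟩, fun n f => ⟨Φ n f, by simp⟩⟩
  · rintro (_ | n) f _ <;> simp
  · rintro (_ | n) f π hn hf hc hm hinj
    · exact absurd hn (lt_irrefl 0)
    · refine ⟨0, 1, Nat.zero_lt_one, le_rfl, Φ n (f 0), by simp, ?_⟩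
      have h1 := hΦ n n (f 0) (π 0 1) (hf 0 (Nat.zero_le _))
      rw [← hm 0 1 Nat.zero_lt_one le_rfl] at h1
      simp [h1]

/-- A finite minor condition (also called height 1 condition): finitely many function symbols `x`
with `a x + 1` variables and finitely many identities, each saying that the symbol `t i` is the
minor of the symbol `s i` given by `π i`. -/
structure MinorCondition where
  X : Type
  I : Type
  finX : Finite X
  finI : Finite I
  a : X → ℕ
  s : I → X
  t : I → X
  π : ∀ i, Fin (a (s i) + 1) → Fin (a (t i) + 1)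

/-- The condition is satisfied by polymorphisms of `𝔸`. -/
def MinorCondition.HoldsIn (c : MinorCondition) {A ι : Type} {ar : ι → ℕ} (𝔸 : Str ι ar A) : Prop :=
  ∃ f : ∀ x : c.X, (Fin (c.a x + 1) → A) → A, (∀ x, PolA 𝔸 (f x)) ∧
    ∀ (i : c.I) (y : Fin (c.a (c.t i) + 1) → A), f (c.t i) y = f (c.s i) (y ∘ c.π i)

/-- The condition is trivial: it is satisfied by projections. -/
def MinorCondition.IsTrivial (c : MinorCondition) : Prop :=
  ∃ φ : ∀ x : c.X, Fin (c.a x + 1), ∀ i : c.I, φ (c.t i) = c.π i (φ (c.s i))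

/-- There is a minor-preserving map to projections if and only if all finite minor conditions which
hold in the polymorphisms are trivial. -/
theorem trivialMinors_iff : TrivialMinors 𝔸 ↔ ∀ c : MinorCondition, c.HoldsIn 𝔸 → c.IsTrivial := by
  classical
  constructor
  · rintro ⟨Φ, hΦ⟩ c ⟨f, hf, hc⟩
    refine ⟨fun x => Φ (c.a x) (f x), fun i => ?_⟩
    have h1 : f (c.t i) = fun y => f (c.s i) (y ∘ c.π i) := funext fun y => hc i y
    show Φ _ (f (c.t i)) = _
    rw [h1]
    exact hΦ _ _ (f (c.s i)) (c.π i) (hf _)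
  · intro h
    refine trivial_of_finite (fun V _ _ I _ f hf π => ?_)
    obtain ⟨m, ⟨e⟩⟩ := Finite.exists_equiv_fin V
    obtain ⟨N, rfl⟩ : ∃ N, m = N + 1 := by
      have h1 : 0 < m := Fin.pos_iff_nonempty.2 ⟨e (Classical.arbitrary V)⟩
      exact ⟨m - 1, by omega⟩
    let X : Type := {g : (V → A) → A // g ∈ range f ∪ range (fun i y => f i (y ∘ π i))}
    have hX : Finite X := ((Set.finite_range f).union
      (Set.finite_range (fun i (y : V → A) => f i (y ∘ π i)))).to_subtype
    let c : MinorCondition :=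
      { X := X, I := I, finX := hX, finI := inferInstance, a := fun _ => N
        s := fun i => ⟨f i, Or.inl ⟨i, rfl⟩⟩
        t := fun i => ⟨fun y => f i (y ∘ π i), Or.inr ⟨i, rfl⟩⟩
        π := fun i k => e (π i (e.symm k)) }
    have hc : c.HoldsIn 𝔸 := by
      refine ⟨fun x y => x.1 (y ∘ e), ?_, ?_⟩
      · rintro ⟨g, (⟨i, rfl⟩ | ⟨i, rfl⟩)⟩
        · exact BEA.PolA.minor (hf i) e
        · exact BEA.PolA.minor (BEA.PolA.minor (hf i) (π i)) e
      · intro i y
        show f i ((y ∘ e) ∘ π i) = f i ((y ∘ fun k => e (π i (e.symm k))) ∘ e)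
        congr 1
        funext k
        simp
    obtain ⟨φ, hφ⟩ := h c hc
    · refine ⟨fun g => if hg : g ∈ range f ∪ range (fun i y => f i (y ∘ π i)) then
        e.symm (φ ⟨g, hg⟩) else Classical.arbitrary V, fun i => ?_⟩
      have h1 : (fun y => f i (y ∘ π i)) ∈ range f ∪ range (fun i y => f i (y ∘ π i)) :=
        Or.inr ⟨i, rfl⟩
      have h2 : f i ∈ range f ∪ range (fun i y => f i (y ∘ π i)) := Or.inl ⟨i, rfl⟩
      simp only
      rw [dif_pos h1, dif_pos h2]
      have h3 := hφ i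
      have h4 : φ ⟨fun y => f i (y ∘ π i), h1⟩ = e (π i (e.symm (φ ⟨f i, h2⟩))) := h3
      rw [h4, Equiv.symm_apply_apply]

end Pool.Agent.Helper67.TMI
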