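import Pool.Agent.Helper67.TMI.NAE
import Pool.Agent.Helper67.TMI.Compact
import Pool.Agent.Helper67.BEA.Ess

/-!
Olšák polymorphisms up to a finite colouring, promise templates, hypergraphs and graphs.
-/

set_option autoImplicit false

namespace Pool.Agent.Helper67.TMI

open Set Function Finset Pool.Agent.W994.AR Pool.Agent.Q112.BP Pool.Agent.Helper67.BEA

/-- the three rows `xyyyxx`, `yxyxyx`, `yyxxxy` (`true` is `y`) -/
def row : Fin 3 → Fin 6 → Bool :=
  ![![false, true, true, true, false, false], ![true, false, true, false, true, false],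
    ![true, true, false, false, false, true]]

/-- the `6`-tuple with entries `x` and `y` given by the `a`-th row -/
def form {X : Type} (a : Fin 3) (x y : X) : Fin 6 → X := fun p => if row a p then y else x

theorem form_zero {X : Type} (x y : X) : form 0 x y = ![x, y, y, y, x, x] := by
  funext p
  fin_cases p <;> rfl

theorem form_one {X : Type} (x y : X) : form 1 x y = ![y, x, y, x, y, x] := by
  funext p
  fin_cases p <;> rfl

theorem form_two {X : Type} (x y : X) : form 2 x y = ![y, y, x, x, x, y] := by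
  funext p
  fin_cases p <;> rfl

theorem exists_col : ∀ a b c : Bool, ¬ (a = b ∧ b = c) →
    ∃ p : Fin 6, row 0 p = a ∧ row 1 p = b ∧ row 2 p = c := by
  decide

/-- `f` acts on the power `J → A` coordinate by coordinate. -/
def act {A J κ : Type} (f : (κ → A) → A) (v : κ → J → A) : J → A := fun j => f (fun k => v k j)

variable {A ι : Type} {ar : ι → ℕ} {𝔸 : Str ι ar A}

/-- If a finite colouring of a power of the domain has no Olšák polymorphism up to colours on some
finite set, then all minor identities are trivial. -/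
theorem trivialMinors_of_colouring {J K : Type} [Finite K] (χ : (J → A) → K) {S : Set (J → A)}
    (hS : S.Finite)
    (hno : ∀ f : (Fin 6 → A) → A, PolA 𝔸 f → ¬ ∀ x ∈ S, ∀ y ∈ S,
      χ (act f (form 0 x y)) = χ (act f (form 1 x y)) ∧
      χ (act f (form 1 x y)) = χ (act f (form 2 x y))) : TrivialMinors 𝔸 := by
  classical
  have : Finite S := hS
  obtain ⟨c, ⟨ε⟩⟩ := Finite.exists_equiv_fin (S × S → K)
  let G : ∀ n : ℕ, ((Fin n → A) → A) → (Fin n → Bool) → Fin c := fun n f z =>
    ε (fun p => χ (act f (fun k => if z k then p.2.1 else p.1.1)))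
  have hG : ∀ n (f : (Fin n → A) → A), PolA 𝔸 f → NAEPol (G n f) := by
    intro n f hf x y z hxyz hFF
    obtain ⟨h1, h2⟩ := hFF
    choose τ hτ using fun k => exists_col (x k) (y k) (z k) (hxyz k)
    refine hno (fun w => f (w ∘ τ)) (BEA.PolA.minor hf τ) (fun u hu v hv => ?_)
    have h3 := congrFun (ε.injective h1) (⟨u, hu⟩, ⟨v, hv⟩)
    have h4 := congrFun (ε.injective h2) (⟨u, hu⟩, ⟨v, hv⟩)
    simp only at h3 h4
    have e0 : act (fun w => f (w ∘ τ)) (form 0 u v) = act f (fun k => if x k then v else u) := by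
      funext j
      show f _ = f _
      congr 1
      funext k
      simp [form, (hτ k).1]
    have e1 : act (fun w => f (w ∘ τ)) (form 1 u v) = act f (fun k => if y k then v else u) := by
      funext j
      show f _ = f _
      congr 1
      funext k
      simp [form, (hτ k).2.1]
    have e2 : act (fun w => f (w ∘ τ)) (form 2 u v) = act f (fun k => if z k then v else u) := by
      funext j
      show f _ = f _
      congr 1
      funext k
      simp [form, (hτ k).2.2]
    rw [e0, e1, e2]
    exact ⟨h3, h4⟩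
  have hminor : ∀ n (f g : (Fin n → A) → A) (π : Fin n → Fin n), (g = fun y => f (y ∘ π)) →
      G n g = fun z => G n f (z ∘ π) := by
    intro n f g π h
    subst h
    rfl
  refine ChainSel.trivialMinors (B := sz c c) (ℓ := 2 ^ c) (E := fun n f => dom (G n f)) ⟨?_, ?_⟩
  · intro n f _
    exact dom_card_le _
  · intro n f π _ hf _ hm hinj
    exact nae_chain (fun i => G n (f i)) π (fun i hi => hG n _ (hf i hi))
      (fun i j hij hj => hminor n _ _ _ (hm i j hij hj)) hinj

/-- The polymorphism `t` of the promise template satisfies the Olšák identities. -/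
def IsOlsak {D C : Type} (t : (Fin 6 → D) → C) : Prop :=
  ∀ x y : D, t ![x, y, y, y, x, x] = t ![y, x, y, x, y, x] ∧
    t ![y, x, y, x, y, x] = t ![y, y, x, x, x, y]

/-- Promise templates without Olšák polymorphism. -/
theorem trivialMinors_of_promise {J τ D C : Type} {arτ : τ → ℕ} [Finite D] [Finite C]
    {𝔻 : Str τ arτ D} {𝕋 : Str τ arτ C}
    {ℙ : Str τ arτ (J → A)} (hℙ : ∀ i, PPDefPow 𝔸 (ℙ i)) {e : D → J → A} (he : Hom 𝔻 ℙ e)
    {h : (J → A) → C} (hh : Hom ℙ 𝕋 h)
    (hno : ∀ t : (Fin 6 → D) → C, PromisePol 𝔻 𝕋 t → ¬ IsOlsak t) : TrivialMinors 𝔸 := by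
  refine trivialMinors_of_colouring h (Set.finite_range e) (fun f hf hcol => ?_)
  refine hno (fun u => h (act f (fun k => e (u k)))) ?_ ?_
  · intro i v hv
    exact hh i _ ((hℙ i).preserves hf (fun k a j => e (v k a) j) (fun k => he i _ (hv k)))
  · intro x y
    have h1 := hcol (e x) ⟨x, rfl⟩ (e y) ⟨y, rfl⟩
    have e0 : ∀ a, act f (form a (e x) (e y)) = act f (fun k => e (form a x y k)) := by
      intro a
      congr 1
      funext k
      simp only [form]
      split_ifs <;> rfl
    rw [e0, e0, e0] at h1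
    simp only [form_zero, form_one, form_two] at h1
    exact h1

/-- Hypergraphs: a relation which contains all non-constant tuples over two elements and has a
finite colouring without monochromatic tuples. -/
theorem trivialMinors_of_hypergraph {J K : Type} [Finite K] {r : ℕ} (hr : 3 ≤ r)
    {R : Set (Fin r → J → A)} (hR : PPDefPow 𝔸 R) {a b : J → A}
    (hab : ∀ s : Fin r → Bool, (∃ i j, s i ≠ s j) → (fun i => if s i then b else a) ∈ R)
    (χ : (J → A) → K) (hχ : ∀ v ∈ R, ∃ i j, χ (v i) ≠ χ (v j)) : TrivialMinors 𝔸 := by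
  refine trivialMinors_of_colouring χ (S := {a, b}) (by simp) (fun f hf hcol => ?_)
  obtain ⟨h1, h2⟩ := hcol a (by simp) b (by simp)
  let ρ : Fin r → Fin 3 := fun i => if i.val = 0 then 0 else if i.val = 1 then 1 else 2
  have hmem : (fun i => act f (form (ρ i) a b)) ∈ R := by
    refine hR.preserves hf (fun p i => form (ρ i) a b p) (fun p => ?_)
    refine hab (fun i => row (ρ i) p) ?_
    have h3 : ∀ p : Fin 6, row 0 p ≠ row 1 p ∨ row 0 p ≠ row 2 p := by decide
    rcases h3 p with h3 | h3
    · exact ⟨⟨0, by omega⟩, ⟨1, by omega⟩, by simpa [ρ] using h3⟩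
    · exact ⟨⟨0, by omega⟩, ⟨2, by omega⟩, by simpa [ρ] using h3⟩
  obtain ⟨i, j, hij⟩ := hχ _ hmem
  apply hij
  have h4 : ∀ q : Fin 3, χ (act f (form q a b)) = χ (act f (form 0 a b)) := by
    intro q
    fin_cases q
    · rfl
    · exact h1.symm
    · exact (h1.trans h2).symm
  rw [h4 (ρ i), h4 (ρ j)]

section graphs

variable {d : ℕ}

/-- the six entries of the additional tuple -/
def zz (d : ℕ) : Fin 6 → ZMod d := ![1, 2, 0, 0, 1, 2]

/-- the row used for the edge to the class of `k` -/
def aa (k : ZMod d) : Fin 3 := if k = 0 then 0 else if k = 1 then 1 else 2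

theorem zz_ne (hd : 3 ≤ d) (k : ZMod d) (p : Fin 6) :
    zz d p ≠ k + (if row (aa k) p then 1 else 0) := by
  have : Fact (1 < d) := ⟨by omega⟩
  have h01 : (0 : ZMod d) ≠ 1 := zero_ne_one
  have h02 : (0 : ZMod d) ≠ 2 := by
    intro h
    have h1 : ((2 : ℕ) : ZMod d) = 0 := by
      rw [Nat.cast_ofNat]
      exact h.symm
    rw [ZMod.natCast_eq_zero_iff] at h1
    have := Nat.le_of_dvd (by norm_num) h1
    omega
  have h12 : (1 : ZMod d) ≠ 2 := by
    intro h
    apply h01
    have h3 : (2 : ZMod d) = 1 + 1 := by norm_num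
    rw [h3] at h
    have := sub_eq_zero.2 h
    simp at this
  have hk1 : ∀ k : ZMod d, k ≠ 0 → (1 : ZMod d) ≠ k + 1 := by
    intro k hk h
    apply hk
    have : k + 1 = 0 + 1 := by rw [zero_add]; exact h.symm
    exact add_right_cancel this
  have hk2 : ∀ k : ZMod d, k ≠ 1 → (2 : ZMod d) ≠ k + 1 := by
    intro k hk h
    apply hk
    have : k + 1 = 1 + 1 := by
      rw [← h]
      norm_num
    exact add_right_cancel this
  by_cases hk : k = 0
  · subst hk
    have haa : aa (0 : ZMod d) = 0 := by simp [aa]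
    rw [haa]
    fin_cases p <;> simp [zz, row, h01, h01.symm, h02.symm, h12.symm]
  · by_cases hk' : k = 1
    · subst hk'
      have haa : aa (1 : ZMod d) = 1 := by simp [aa]
      rw [haa]
      have h11 : (1 : ZMod d) + 1 = 2 := by norm_num
      fin_cases p <;>
        simp [zz, row, h11, h01, h02, h12, h12.symm]
    · have haa : aa k = 2 := by simp [aa, hk, hk']
      rw [haa]
      have e1 := hk1 k hk
      have e2 := hk2 k hk'
      fin_cases p <;> simp [zz, row, Ne.symm hk, Ne.symm hk', e1, e2]

/-- Graphs: a graph on a power which contains a `d`-clique, `d ≥ 3`, and has a homomorphism to a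
finite graph without `2d`-clique. -/
theorem trivialMinors_of_graph (hd : 3 ≤ d) {J T : Type} [Finite T] {R : Set (Fin 2 → J → A)}
    (hR : PPDefPow 𝔸 R) (e : Fin d → J → A) (he : ∀ i j, i ≠ j → ![e i, e j] ∈ R)
    (adj : T → T → Prop) (h : (J → A) → T) (hh : ∀ u v, ![u, v] ∈ R → adj (h u) (h v))
    (hT : ¬ ∃ c : Fin (2 * d) → T, ∀ i j, i ≠ j → adj (c i) (c j)) : TrivialMinors 𝔸 := by
  refine trivialMinors_of_colouring h (Set.finite_range e) (fun f hf hcol => hT ?_)
  have : NeZero d := ⟨by omega⟩
  obtain ⟨ε⟩ : Nonempty (ZMod d ≃ Fin d) := by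
    rw [← Fintype.card_eq]
    simp [ZMod.card]
  let v : ZMod d → J → A := fun i => e (ε i)
  have hv : ∀ i j, i ≠ j → ![v i, v j] ∈ R := fun i j hij => he _ _ (fun h => hij (ε.injective h))
  have hpres : ∀ x y : Fin 6 → J → A, (∀ p, ![x p, y p] ∈ R) → ![act f x, act f y] ∈ R := by
    intro x y hxy
    have h1 := hR.preserves hf (fun p => ![x p, y p]) hxy
    convert h1 using 1
    funext i
    fin_cases i <;> rfl
  have hsame : ∀ (q q' : Fin 3) (i : ZMod d), h (act f (form q (v i) (v (i + 1)))) =
      h (act f (form q' (v i) (v (i + 1)))) := by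
    intro q q' i
    obtain ⟨h1, h2⟩ := hcol (v i) ⟨_, rfl⟩ (v (i + 1)) ⟨_, rfl⟩
    have h4 : ∀ q : Fin 3, h (act f (form q (v i) (v (i + 1)))) =
        h (act f (form 0 (v i) (v (i + 1)))) := by
      intro q
      fin_cases q
      · rfl
      · exact h1.symm
      · exact (h1.trans h2).symm
    rw [h4 q, h4 q']
  have hform : ∀ (q : Fin 3) (i : ZMod d) (p : Fin 6), form q (v i) (v (i + 1)) p =
      v (i + if row q p then 1 else 0) := by
    intro q i p
    simp only [form]
    split_ifs
    · rfl
    · rw [add_zero]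
  let c' : ZMod d ⊕ ZMod d → T := Sum.elim (fun i => h (act f (form 0 (v i) (v (i + 1)))))
    (fun j => h (act f (fun p => v (zz d p + j))))
  have hc' : ∀ s t, s ≠ t → adj (c' s) (c' t) := by
    rintro (i | i) (j | j) hst
    · have hij : i ≠ j := fun h => hst (by rw [h])
      refine hh _ _ (hpres _ _ (fun p => ?_))
      rw [hform, hform]
      exact hv _ _ (fun h => hij (add_right_cancel h))
    · show adj (h _) (h _)
      rw [hsame 0 (aa (i - j)) i]
      refine hh _ _ (hpres _ _ (fun p => ?_))
      rw [hform]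
      refine hv _ _ (fun h => zz_ne hd (i - j) p ?_)
      rw [eq_comm, sub_add_eq_add_sub, sub_eq_iff_eq_add]
      exact h
    · show adj (h _) (h _)
      rw [hsame 0 (aa (j - i)) j]
      refine hh _ _ (hpres _ _ (fun p => ?_))
      rw [hform]
      refine hv _ _ (fun h => zz_ne hd (j - i) p ?_)
      rw [eq_comm, sub_add_eq_add_sub, sub_eq_iff_eq_add]
      exact h.symm
    · have hij : i ≠ j := fun h => hst (by rw [h])
      refine hh _ _ (hpres _ _ (fun p => ?_))
      exact hv _ _ (fun h => hij (add_left_cancel h))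
  obtain ⟨δ⟩ : Nonempty (Fin (2 * d) ≃ ZMod d ⊕ ZMod d) := by
    rw [← Fintype.card_eq]
    simp [ZMod.card, two_mul]
  exact ⟨fun i => c' (δ i), fun i j hij => hc' _ _ (fun h => hij (δ.injective h))⟩

end graphs

end Pool.Agent.Helper67.TMI
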