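import Mathlib.Combinatorics.HalesJewett
import Mathlib.Combinatorics.Compactness
import Pool.Agent.Helper67.BEA.Sel

/-!
The chain criterion: a selection of boundedly many variables for each polymorphism which meets
itself along long chains of minors gives a minor-preserving map to projections.
-/

set_option autoImplicit false

namespace Pool.Agent.Helper67.TMI

open Set Function Finset Pool.Agent.W994.AR Pool.Agent.Q112.BP Pool.Agent.Helper67.BEA

variable {A ι : Type} {ar : ι → ℕ}

/-- Chain condition for a selection `E` of at most `B` variables of each polymorphism: along every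
chain of minors `f 0 → f 1 → ... → f ℓ` whose maps are injective on the selected variables, some
variable selected for `f i` is mapped to a variable selected for `f j`, where `i < j`. -/
structure ChainSel (𝔸 : Str ι ar A) (B ℓ : ℕ)
    (E : ∀ n : ℕ, ((Fin n → A) → A) → Finset (Fin n)) : Prop where
  bdd : ∀ (n : ℕ) (f : (Fin n → A) → A), PolA 𝔸 f → (E n f).card ≤ B
  chain : ∀ (n : ℕ) (f : ℕ → (Fin n → A) → A) (π : ℕ → ℕ → Fin n → Fin n), 0 < n →
    (∀ i ≤ ℓ, PolA 𝔸 (f i)) →
    (∀ i j k, i < j → j < k → k ≤ ℓ → ∀ v, π j k (π i j v) = π i k v) →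
    (∀ i j, i < j → j ≤ ℓ → f j = fun y => f i (y ∘ π i j)) →
    (∀ i j, i < j → j ≤ ℓ → Set.InjOn (π i j) (E n (f i))) →
    ∃ i j, i < j ∧ j ≤ ℓ ∧ ∃ a ∈ E n (f i), π i j a ∈ E n (f j)

/-- iterated star composition -/
def iter {V : Type} : ∀ n : ℕ, (Fin n → (V → A) → A) → ((Fin n → V) → A) → A
  | 0, _, x => x (fun i => i.elim0)
  | n + 1, g, x => g 0 (fun v => iter n (fun i => g i.succ) (fun w => x (Fin.cons v w)))

theorem iter_pol {𝔸 : Str ι ar A} {V : Type} : ∀ (n : ℕ) (g : Fin n → (V → A) → A),
    (∀ i, PolA 𝔸 (g i)) → PolA 𝔸 (iter n g)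
  | 0, _, _ => fun _ _ hv => hv _
  | n + 1, g, hg => fun i v hv => hg 0 i
      (fun u j => iter n (fun i => g i.succ) (fun w => v (Fin.cons u w) j))
      (fun u => iter_pol n (fun i => g i.succ) (fun i => hg i.succ) i
        (fun w => v (Fin.cons u w)) (fun _ => hv _))

theorem iter_minor {V : Type} : ∀ (n : ℕ) (g : Fin n → (V → A) → A) (ρ : Fin n → V → V)
    (x : (Fin n → V) → A), iter n (fun i y => g i (y ∘ ρ i)) x =
      iter n g (fun w => x (fun i => ρ i (w i)))
  | 0, _, _, x => by
    simp only [iter]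
    congr 1
    funext i
    exact i.elim0
  | n + 1, g, ρ, x => by
    simp only [iter]
    congr 1
    funext u
    simp only [Function.comp]
    rw [iter_minor n (fun i => g i.succ) (fun i => ρ i.succ)]
    congr 1
    funext w
    congr 1
    funext i
    refine Fin.cases ?_ (fun i => ?_) i
    · simp
    · simp

section comp

variable {V J : Type} {n : ℕ}

/-- iterated composition over an index set -/
def cmp (e : J ≃ Fin n) (g : J → (V → A) → A) : ((J → V) → A) → A :=
  fun x => iter n (fun i => g (e.symm i)) (fun w => x (fun j => w (e j)))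

theorem cmp_pol {𝔸 : Str ι ar A} (e : J ≃ Fin n) (g : J → (V → A) → A)
    (hg : ∀ j, PolA 𝔸 (g j)) : PolA 𝔸 (cmp e g) :=
  fun i v hv => iter_pol n _ (fun i => hg (e.symm i)) i (fun w => v (fun j => w (e j)))
    (fun _ => hv _)

theorem cmp_minor (e : J ≃ Fin n) (g : J → (V → A) → A) (ρ : J → V → V) (x : (J → V) → A) :
    cmp e (fun j y => g j (y ∘ ρ j)) x = cmp e g (fun w => x (fun j => ρ j (w j))) := by
  unfold cmp
  rw [iter_minor n (fun i => g (e.symm i)) (fun i => ρ (e.symm i))]
  simp

end comp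

/-- A finite set with at most `B` elements is covered by `B` values. -/
theorem exists_enum {κ : Type} [Nonempty κ] {B : ℕ} (s : Finset κ) (hs : s.card ≤ B) :
    ∃ g : Fin B → κ, ∀ a ∈ s, ∃ i, g i = a := by
  classical
  refine ⟨fun i => if h : i.val < s.card then (s.equivFin.symm ⟨i.val, h⟩).val
    else Classical.arbitrary κ, fun a ha => ?_⟩
  refine ⟨⟨(s.equivFin ⟨a, ha⟩).val, lt_of_lt_of_le (s.equivFin ⟨a, ha⟩).isLt hs⟩, ?_⟩
  simp

/-- choosing blocks one after the other -/
theorem exists_blocks {Q : Type} [Fintype Q] [DecidableEq Q] [Nonempty Q]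
    (bad : Finset Q → Finset Q) {M : ℕ} (hbad : ∀ C, (bad C).card ≤ M) :
    ∀ ℓ : ℕ, ℓ + ℓ * M < Fintype.card Q → ∃ q : ℕ → Q, ∀ i < ℓ,
      q i ∉ (Finset.range i).image q ∧ ∀ j ≤ i, q i ∉ bad ((Finset.range j).image q)
  | 0, _ => ⟨fun _ => Classical.arbitrary Q, fun i hi => absurd hi (Nat.not_lt_zero i)⟩
  | ℓ + 1, h => by
    obtain ⟨q, hq⟩ := exists_blocks bad hbad ℓ (by nlinarith)
    let U : Finset Q := (Finset.range ℓ).image q ∪
      (Finset.range (ℓ + 1)).biUnion (fun j => bad ((Finset.range j).image q))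
    have hU : U.card < Fintype.card Q := by
      have h1 : U.card ≤ ℓ + (ℓ + 1) * M := by
        refine (Finset.card_union_le _ _).trans (Nat.add_le_add ?_ ?_)
        · exact Finset.card_image_le.trans (by simp)
        · refine (Finset.card_biUnion_le_card_mul _ _ M (fun j _ => hbad _)).trans ?_
          simp
      omega
    obtain ⟨x, hx⟩ : ∃ x, x ∉ U := by
      by_contra hno
      push Not at hno
      have : U = Finset.univ := Finset.eq_univ_iff_forall.2 hno
      rw [this, Finset.card_univ] at hU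
      exact lt_irrefl _ hU
    refine ⟨Function.update q ℓ x, fun i hi => ?_⟩
    have himg : ∀ j ≤ ℓ, (Finset.range j).image (Function.update q ℓ x) =
        (Finset.range j).image q := by
      intro j hj
      refine Finset.image_congr fun k hk => ?_
      have hk' : k < j := by simpa using hk
      exact Function.update_of_ne (by omega) _ _
    rcases Nat.lt_succ_iff_lt_or_eq.1 hi with hi' | hi'
    · rw [himg i hi'.le, Function.update_of_ne (by omega)]
      refine ⟨(hq i hi').1, fun j hj => ?_⟩
      rw [himg j (by omega)]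
      exact (hq i hi').2 j hj
    · subst hi'
      rw [himg i le_rfl, Function.update_self]
      refine ⟨fun h => hx (Finset.mem_union_left _ h), fun j hj h => ?_⟩
      rw [himg j hj] at h
      exact hx (Finset.mem_union_right _ (Finset.mem_biUnion.2 ⟨j, by simp; omega, h⟩))

section finite_version

variable {𝔸 : Str ι ar A} {B ℓ : ℕ} {E : ∀ n : ℕ, ((Fin n → A) → A) → Finset (Fin n)}

open Classical in
theorem ChainSel.finite_version (h : ChainSel 𝔸 B ℓ E) {V : Type} [Finite V] [Nonempty V]
    {I : Type} [Finite I] (f : I → (V → A) → A) (hf : ∀ i, PolA 𝔸 (f i)) (π : I → V → V) :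
    ∃ φ : ((V → A) → A) → V, ∀ i, φ (fun y => f i (y ∘ π i)) = π i (φ (f i)) := by
  rcases isEmpty_or_nonempty I with hI | hI
  · exact ⟨fun _ => Classical.arbitrary V, fun i => (hI.false i).elim⟩
  -- edges
  let src : I ⊕ I → (V → A) → A := Sum.elim f (fun i y => f i (y ∘ π i))
  let tgt : I ⊕ I → (V → A) → A :=
    Sum.elim (fun i y => f i (y ∘ π i)) (fun i y => f i (y ∘ π i))
  let pi : I ⊕ I → V → V := Sum.elim π (fun _ => id)
  have htgt : ∀ e, tgt e = fun y => src e (y ∘ pi e) := by rintro (i | i) <;> rfl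
  have hsrcP : ∀ e, PolA 𝔸 (src e) := by
    rintro (i | i)
    · exact hf i
    · exact BEA.PolA.minor (hf i) (π i)
  have htgtP : ∀ e, PolA 𝔸 (tgt e) := by
    rintro (i | i)
    · exact BEA.PolA.minor (hf i) (π i)
    · exact BEA.PolA.minor (hf i) (π i)
  let Q := Fin (ℓ + ℓ * (B * B) + 1)
  obtain ⟨T, hT, hHJ⟩ := Combinatorics.Line.exists_mono_in_high_dimension (Q → I ⊕ I)
    (Finset Q × Finset Q × Q × Fin B × Fin B)
  obtain ⟨m, ⟨e⟩⟩ := Finite.exists_equiv_fin (T × Q)
  obtain ⟨N, ⟨e'⟩⟩ := Finite.exists_equiv_fin ((T × Q) → V)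
  have hN : 0 < N := Fin.pos_iff_nonempty.2 ⟨e' (Classical.arbitrary _)⟩
  let fn : (T → Q → I ⊕ I) → Finset Q → (T × Q) → (V → A) → A := fun w C j =>
    if j.2 ∈ C then tgt (w j.1 j.2) else src (w j.1 j.2)
  let FF : (T → Q → I ⊕ I) → Finset Q → ((T × Q → V) → A) → A := fun w C => cmp e (fn w C)
  have hFFP : ∀ w C, PolA 𝔸 (FF w C) := by
    intro w C
    refine cmp_pol e _ (fun j => ?_)
    simp only [fn]
    split_ifs
    · exact htgtP _
    · exact hsrcP _
  let rho : (T → Q → I ⊕ I) → Finset Q → Finset Q → (T × Q → V) → (T × Q → V) :=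
    fun w C C' x j => if j.2 ∈ C' ∧ j.2 ∉ C then pi (w j.1 j.2) (x j) else x j
  have hFF : ∀ w C C', C ⊆ C' → FF w C' = fun x => FF w C (x ∘ rho w C C') := by
    intro w C C' hCC
    have h1 : fn w C' = fun j y => fn w C j
        (y ∘ (if j.2 ∈ C' ∧ j.2 ∉ C then pi (w j.1 j.2) else id)) := by
      funext j y
      by_cases h2 : j.2 ∈ C
      · have h3 : j.2 ∈ C' := hCC h2
        simp [fn, h2, h3]
      · by_cases h3 : j.2 ∈ C'
        · simp only [fn, h2, h3, if_true, if_false, not_false_eq_true, and_self, htgt]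
        · simp [fn, h2, h3]
    funext x
    show cmp e (fn w C') x = cmp e (fn w C) (x ∘ rho w C C')
    rw [h1, cmp_minor e (fn w C)
      (fun j => if j.2 ∈ C' ∧ j.2 ∉ C then pi (w j.1 j.2) else id)]
    congr 1
    funext y
    show x _ = x _
    congr 1
    funext j
    simp only [rho]
    split_ifs <;> rfl
  let E' : (((T × Q → V) → A) → A) → Finset (T × Q → V) := fun F =>
    (E N (fun y => F (y ∘ e'))).image e'.symm
  have hE'card : ∀ F, PolA 𝔸 F → (E' F).card ≤ B := fun F hF =>
    Finset.card_image_le.trans (h.bdd N _ (BEA.PolA.minor hF e'))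
  have hen : ∀ F : ((T × Q → V) → A) → A, ∃ g : Fin B → (T × Q → V),
      PolA 𝔸 F → ∀ a ∈ E' F, ∃ i, g i = a := by
    intro F
    by_cases hF : PolA 𝔸 F
    · obtain ⟨g, hg⟩ := exists_enum (E' F) (hE'card F hF)
      exact ⟨g, fun _ => hg⟩
    · exact ⟨fun _ => Classical.arbitrary _, fun h => absurd h hF⟩
  choose en hen using hen
  let bad : (T → Q → I ⊕ I) → Finset Q → Finset Q := fun w C =>
    ((E' (FF w C)) ×ˢ (E' (FF w C))).image
      (fun p => if h : ∃ j : T × Q, p.1 j ≠ p.2 j then h.choose.2 else Classical.arbitrary Q)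
  have hbad : ∀ w C, (bad w C).card ≤ B * B := by
    intro w C
    refine Finset.card_image_le.trans ?_
    rw [Finset.card_product]
    exact Nat.mul_le_mul (hE'card _ (hFFP w C)) (hE'card _ (hFFP w C))
  -- the colour of a word
  let Good : (T → Q → I ⊕ I) → (Finset Q × Finset Q × Q × Fin B × Fin B) → Prop := fun w c =>
    c.2.2.1 ∉ c.1 ∧ c.2.2.1 ∈ c.2.1 ∧
      rho w c.1 c.2.1 (en (FF w c.1) c.2.2.2.1) = en (FF w c.2.1) c.2.2.2.2
  have hcol : ∀ w, ∃ c, Good w c := by
    intro w
    obtain ⟨q, hq⟩ := exists_blocks (bad w) (hbad w) ℓ (by simp [Q])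
    let C : ℕ → Finset Q := fun i => (Finset.range i).image q
    have hC : ∀ i j, i ≤ j → C i ⊆ C j := fun i j hij =>
      Finset.image_subset_image (Finset.range_subset_range.2 hij)
    have hnot : ∀ i j, j ≤ ℓ → ∀ k, k ∈ C j → k ∉ C i → k ∉ bad w (C i) := by
      intro i j hj k hk hki
      obtain ⟨s, hs, rfl⟩ := Finset.mem_image.1 hk
      have hs' : s < j := by simpa using hs
      have his : i ≤ s := by
        by_contra hlt
        exact hki (Finset.mem_image_of_mem _ (by simp; omega))
      exact (hq s (by omega)).2 i his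
    obtain ⟨i, j, hij, hj, a, ha, hb⟩ := h.chain N (fun i y => FF w (C i) (y ∘ e'))
      (fun i j v => e' (rho w (C i) (C j) (e'.symm v))) hN
      (fun i _ => BEA.PolA.minor (hFFP w (C i)) e')
      (by
        intro i j k hij hjk hk v
        simp only [Equiv.symm_apply_apply]
        congr 1
        funext p
        have h1 := hC i j hij.le
        have h2 := hC j k hjk.le
        simp only [rho]
        by_cases h3 : p.2 ∈ C i
        · have h4 := h1 h3
          simp [h3, h4]
        · by_cases h4 : p.2 ∈ C j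
          · have h5 := h2 h4
            simp [h3, h4, h5]
          · simp [h3, h4])
      (by
        intro i j hij hj
        funext y
        show FF w (C j) (y ∘ e') = _
        rw [hFF w (C i) (C j) (hC i j hij.le)]
        show FF w (C i) _ = FF w (C i) _
        congr 1
        funext x
        simp [Function.comp])
      (by
        intro i j hij hj a ha b hb hab
        have ha' : e'.symm a ∈ E' (FF w (C i)) := Finset.mem_image_of_mem _ ha
        have hb' : e'.symm b ∈ E' (FF w (C i)) := Finset.mem_image_of_mem _ hb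
        have hab' : rho w (C i) (C j) (e'.symm a) = rho w (C i) (C j) (e'.symm b) :=
          e'.injective hab
        apply e'.symm.injective
        by_contra hne
        have hex : ∃ p : T × Q, (e'.symm a) p ≠ (e'.symm b) p := by
          by_contra hno
          push Not at hno
          exact hne (funext hno)
        have h1 : hex.choose.2 ∈ bad w (C i) := by
          refine Finset.mem_image.2 ⟨(e'.symm a, e'.symm b), Finset.mem_product.2 ⟨ha', hb'⟩, ?_⟩
          exact dif_pos hex
        have h2 : ¬ (hex.choose.2 ∈ C j ∧ hex.choose.2 ∉ C i) := fun h3 =>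
          hnot i j hj _ h3.1 h3.2 h1
        have h3 := congrFun hab' hex.choose
        simp only [rho, if_neg h2] at h3
        exact hex.choose_spec h3)
    obtain ⟨ia, hia⟩ := hen (FF w (C i)) (hFFP w (C i)) (e'.symm a)
      (Finset.mem_image_of_mem _ ha)
    obtain ⟨ib, hib⟩ := hen (FF w (C j)) (hFFP w (C j))
      (e'.symm (e' (rho w (C i) (C j) (e'.symm a)))) (Finset.mem_image_of_mem _ hb)
    refine ⟨(C i, C j, q i, ia, ib), (hq i (by omega)).1,
      Finset.mem_image_of_mem _ (by simpa using hij), ?_⟩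
    show rho w (C i) (C j) (en (FF w (C i)) ia) = en (FF w (C j)) ib
    rw [hia, hib, Equiv.symm_apply_apply]
  choose col hcol using hcol
  obtain ⟨l, c, hc⟩ := hHJ col
  obtain ⟨C, C', q, ia, ib⟩ := c
  obtain ⟨t₀, ht₀⟩ := l.proper
  let e₀ : I ⊕ I := Classical.arbitrary _
  let x₀ : Q → I ⊕ I := fun _ => e₀
  let G : Finset Q → ((V → A) → A) → ((T × Q → V) → A) → A := fun D g =>
    cmp e (fun j => if j.2 = q ∧ l.idxFun j.1 = none then g
      else if j.2 ∈ D then tgt (l x₀ j.1 j.2) else src (l x₀ j.1 j.2))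
  let X : I ⊕ I → Q → I ⊕ I := fun ε k => if k = q then ε else e₀
  have hG : ∀ ε D, FF (l (X ε)) D = G D (if q ∈ D then tgt ε else src ε) := by
    intro ε D
    show cmp e _ = cmp e _
    congr 1
    funext j
    simp only [fn]
    by_cases h1 : j.2 = q
    · by_cases h2 : l.idxFun j.1 = none
      · simp [h1, h2, X, Combinatorics.Line.coe_apply]
      · obtain ⟨y, hy⟩ := Option.ne_none_iff_exists'.1 h2
        simp [h1, hy, Combinatorics.Line.coe_apply]
    · rcases hy : l.idxFun j.1 with _ | y
      · simp [h1, hy, X, x₀, Combinatorics.Line.coe_apply]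
      · simp [h1, hy, Combinatorics.Line.coe_apply]
  have key : ∀ ε, pi ε ((en (G C (src ε)) ia) (t₀, q)) = (en (G C' (tgt ε)) ib) (t₀, q) := by
    intro ε
    obtain ⟨h1, h2, h3⟩ := hcol (l (X ε))
    rw [hc (X ε)] at h1 h2 h3
    simp only at h1 h2 h3
    rw [hG, hG, if_neg h1, if_pos h2] at h3
    have h4 := congrFun h3 (t₀, q)
    have h5 : l (X ε) t₀ q = ε := by
      rw [Combinatorics.Line.coe_apply, ht₀]
      simp [X]
    simp only [rho, h1, h2, not_false_eq_true, and_self, if_true, h5] at h4
    exact h4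
  refine ⟨fun g => (en (G C g) ia) (t₀, q), fun i => ?_⟩
  have h1 := key (Sum.inl i)
  have h2 := key (Sum.inr i)
  simp only [src, tgt, pi, Sum.elim_inl, Sum.elim_inr, id] at h1 h2
  show (en (G C (fun y => f i (y ∘ π i))) ia) (t₀, q) = π i ((en (G C (f i)) ia) (t₀, q))
  rw [h2, ← h1]

end finite_version

end Pool.Agent.Helper67.TMI
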