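import Pool.Graph.R_seed8.H294R2.BF.Cube

/-!
Colourings of the cube and the chain condition for polymorphisms from `NAE` on two elements to
`NAE` on finitely many colours.
-/

set_option autoImplicit false

namespace Pool.Agent.Helper67.TMI

open Finset

/-- Two points of the same colour which agree in few coordinates. -/
theorem near_antipodal {n c : ℕ} (F : (Fin n → Bool) → Fin c) :
    ∃ x y : Fin n → Bool, F x = F y ∧ (univ.filter fun k => x k = y k).card ≤ c := by
  classical
  by_cases h : ∃ x : Fin n → Bool, F x = F (fun j => !x j)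
  · obtain ⟨x, hx⟩ := h
    refine ⟨x, fun j => !x j, hx, ?_⟩
    have : (univ.filter fun k => x k = !x k) = ∅ := by
      ext k
      simp
    rw [this]
    simp
  · push Not at h
    let L : (Fin n → Bool) → Fin c × Bool := fun x =>
      (min (F x) (F (fun j => !x j)), decide (F x < F (fun j => !x j)))
    have hL : ∀ x, L (fun j => !x j) = ((L x).1, !(L x).2) := by
      intro x
      have h1 : (fun j => !(!x j)) = x := by
        funext j
        simp
      simp only [L, h1]
      refine Prod.ext (min_comm _ _) ?_
      show decide (F (fun j => !x j) < F x) = !decide (F x < F (fun j => !x j))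
      rcases lt_trichotomy (F x) (F (fun j => !x j)) with h2 | h2 | h2
      · simp [h2, h2.le]
      · exact absurd h2 (h x)
      · simp [h2, h2.le]
    obtain ⟨S, x, P, hS, hSP, hP⟩ := H294BF.cube_tucker L hL
    have hPne : P.Nonempty := by
      rw [← Finset.card_pos]
      exact lt_of_lt_of_le (Finset.card_pos.2 hS) hSP
    obtain ⟨i, hi⟩ := hPne
    obtain ⟨⟨y, hy, hLy⟩, ⟨z, hz, hLz⟩⟩ := hP i hi
    refine ⟨y, fun j => !z j, ?_, ?_⟩
    · have h1 : F y < F (fun j => !y j) := by
        have := congrArg Prod.snd hLy
        simpa [L] using this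
      have h2 : F y = i := by
        have := congrArg Prod.fst hLy
        simp only [L] at this
        rw [min_eq_left h1.le] at this
        exact this
      have h3 : F (fun j => !z j) ≤ F z := by
        have := congrArg Prod.snd hLz
        simpa [L] using this
      have h4 : F (fun j => !z j) = i := by
        have := congrArg Prod.fst hLz
        simp only [L] at this
        rw [min_eq_right h3] at this
        exact this
      rw [h2, h4]
    · have h5 : (univ.filter fun k => y k = !z k) ⊆ S := by
        intro k hk
        by_contra hkS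
        rw [Finset.mem_filter] at hk
        have h6 := hk.2
        rw [hy k hkS, hz k hkS] at h6
        simp at h6
      calc (univ.filter fun k => y k = !z k).card ≤ S.card := Finset.card_le_card h5
        _ ≤ P.card := hSP
        _ ≤ c := by
          have := Finset.card_le_univ P
          simpa using this

/-- `F` is a polymorphism from `NAE` on `Bool` to `NAE` on `K`. -/
def NAEPol {κ K : Type} (F : (κ → Bool) → K) : Prop :=
  ∀ x y z : κ → Bool, (∀ k, ¬ (x k = y k ∧ y k = z k)) → ¬ (F x = F y ∧ F y = F z)

variable {n c : ℕ}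

/-- the colours of the extensions of the assignment `a` on `s` -/
def cols (F : (Fin n → Bool) → Fin c) (s : Finset (Fin n)) (a : Fin n → Bool) : Finset (Fin c) :=
  (univ.filter fun x : Fin n → Bool => ∀ k ∈ s, x k = a k).image F

theorem mem_cols {F : (Fin n → Bool) → Fin c} {s : Finset (Fin n)} {a : Fin n → Bool}
    {k : Fin c} : k ∈ cols F s a ↔ ∃ x : Fin n → Bool, (∀ k ∈ s, x k = a k) ∧ F x = k := by
  simp [cols]

/-- the sizes of the partial assignments -/
def sz (c : ℕ) : ℕ → ℕ
  | 0 => 0
  | i + 1 => sz c i + sz c i + c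

theorem sz_mono (c : ℕ) : Monotone (sz c) := monotone_nat_of_le_succ fun i => by
  show sz c i ≤ sz c i + sz c i + c
  omega

/-- a small partial assignment on which `F` has at most `c - i` colours -/
def Wit (F : (Fin n → Bool) → Fin c) (i : ℕ) : Prop :=
  ∃ (s : Finset (Fin n)) (a : Fin n → Bool), s.card ≤ sz c i ∧ (cols F s a).card ≤ c - i

theorem wit_zero (F : (Fin n → Bool) → Fin c) : Wit F 0 := by
  refine ⟨∅, fun _ => true, by simp, ?_⟩
  have := Finset.card_le_univ (cols F ∅ fun _ => true)
  simpa using this

theorem not_wit (F : (Fin n → Bool) → Fin c) : ¬ Wit F c := by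
  rintro ⟨s, a, -, h⟩
  have h1 : F a ∈ cols F s a := mem_cols.2 ⟨a, fun _ _ => rfl, rfl⟩
  have h2 := Finset.card_pos.2 ⟨_, h1⟩
  omega

open Classical in
/-- the largest `i` with a witness -/
noncomputable def lev (F : (Fin n → Bool) → Fin c) : ℕ := Nat.findGreatest (Wit F) c

theorem wit_lev (F : (Fin n → Bool) → Fin c) : Wit F (lev F) := by
  classical
  exact Nat.findGreatest_spec (P := Wit F) (Nat.zero_le c) (wit_zero F)

theorem lev_lt (F : (Fin n → Bool) → Fin c) : lev F < c := by
  classical
  refine lt_of_le_of_ne (Nat.findGreatest_le c) fun h => ?_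
  have := wit_lev F
  rw [h] at this
  exact not_wit F this

theorem le_lev {F : (Fin n → Bool) → Fin c} {i : ℕ} (hi : i ≤ c) (h : Wit F i) : i ≤ lev F := by
  classical
  exact Nat.le_findGreatest hi h

/-- the chosen partial assignment: its domain -/
noncomputable def dom (F : (Fin n → Bool) → Fin c) : Finset (Fin n) := (wit_lev F).choose

/-- the chosen partial assignment: its values -/
noncomputable def asg (F : (Fin n → Bool) → Fin c) : Fin n → Bool := (wit_lev F).choose_spec.choose

theorem dom_card (F : (Fin n → Bool) → Fin c) : (dom F).card ≤ sz c (lev F) :=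
  (wit_lev F).choose_spec.choose_spec.1

theorem cols_card_le (F : (Fin n → Bool) → Fin c) : (cols F (dom F) (asg F)).card ≤ c - lev F :=
  (wit_lev F).choose_spec.choose_spec.2

theorem card_of_small {F : (Fin n → Bool) → Fin c} {s : Finset (Fin n)} {a : Fin n → Bool}
    (hs : s.card ≤ sz c (lev F)) : c - lev F ≤ (cols F s a).card := by
  by_contra h
  have h1 : Wit F (lev F + 1) :=
    ⟨s, a, hs.trans (sz_mono c (Nat.le_succ _)), by omega⟩
  have h2 := le_lev (by have := lev_lt F; omega) h1
  omega

theorem cols_card (F : (Fin n → Bool) → Fin c) : (cols F (dom F) (asg F)).card = c - lev F :=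
  le_antisymm (cols_card_le F) (card_of_small (dom_card F))

/-- two small partial assignments with the same minimal set of colours overlap -/
theorem overlap {F : (Fin n → Bool) → Fin c} (hF : NAEPol F) {s s' : Finset (Fin n)}
    {a a' : Fin n → Bool} (hs : s.card ≤ sz c (lev F)) (hs' : s'.card ≤ sz c (lev F))
    (hK : cols F s a = cols F s' a') (hcard : (cols F s' a').card = c - lev F) :
    ¬ Disjoint s s' := by
  classical
  intro hd
  let X : (Fin n → Bool) → Fin n → Bool := fun x k =>
    if k ∈ s then a k else if k ∈ s' then !a' k else x k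
  obtain ⟨x, y, hxy, hcd⟩ := near_antipodal (fun x => F (X x))
  let S := univ.filter fun k => x k = y k
  let a'' : Fin n → Bool := fun k => if k ∈ s then !a k else if k ∈ s' then a' k else !x k
  have hk : F (X x) ∈ cols F s' a' := by
    rw [← hK]
    exact mem_cols.2 ⟨X x, fun k hk => by simp [X, hk], rfl⟩
  have hsub : cols F (s ∪ s' ∪ S) a'' ⊆ (cols F s' a').erase (F (X x)) := by
    intro k hk
    obtain ⟨z, hz, rfl⟩ := mem_cols.1 hk
    rw [Finset.mem_erase]
    constructor
    · intro hzx
      refine hF (X x) (X y) z ?_ ⟨hxy, ?_⟩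
      · rintro k ⟨h1, h2⟩
        by_cases hks : k ∈ s
        · have h3 := hz k (by simp [hks])
          simp [X, hks, a''] at h1 h2 h3
          rw [h3] at h2
          simp at h2
        · by_cases hks' : k ∈ s'
          · have h3 := hz k (by simp [hks'])
            simp [X, hks, hks', a''] at h1 h2 h3
            rw [h3] at h2
            simp at h2
          · simp only [X, hks, hks', if_false] at h1 h2
            have h3 := hz k (by simp [S, h1])
            simp only [a'', hks, hks', if_false] at h3
            rw [← h1, h3] at h2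
            simp at h2
      · rw [← hzx] at hxy
        exact hxy.symm
    · refine mem_cols.2 ⟨z, fun k hk => ?_, rfl⟩
      have h3 := hz k (by simp [hk])
      have h4 : k ∉ s := fun h => Finset.disjoint_left.1 hd h hk
      simpa [a'', h4, hk] using h3
  have h1 : (cols F (s ∪ s' ∪ S) a'').card ≤ c - (lev F + 1) := by
    calc _ ≤ ((cols F s' a').erase (F (X x))).card := Finset.card_le_card hsub
      _ = (cols F s' a').card - 1 := Finset.card_erase_of_mem hk
      _ = c - lev F - 1 := by rw [hcard]
      _ = c - (lev F + 1) := by omega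
  have h2 : (s ∪ s' ∪ S).card ≤ sz c (lev F + 1) := by
    calc _ ≤ s.card + s'.card + S.card :=
        (Finset.card_union_le _ _).trans (Nat.add_le_add_right (Finset.card_union_le _ _) _)
      _ ≤ sz c (lev F) + sz c (lev F) + c := by
        have : S.card ≤ c := hcd
        omega
  have h3 := le_lev (F := F) (by have := lev_lt F; omega) ⟨_, _, h2, h1⟩
  omega

/-- The chain condition. -/
theorem nae_chain (F : ℕ → (Fin n → Bool) → Fin c) (π : ℕ → ℕ → Fin n → Fin n)
    (hF : ∀ i ≤ 2 ^ c, NAEPol (F i))
    (hπ : ∀ i j, i < j → j ≤ 2 ^ c → F j = fun z => F i (z ∘ π i j))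
    (hinj : ∀ i j, i < j → j ≤ 2 ^ c → Set.InjOn (π i j) (dom (F i))) :
    ∃ i j, i < j ∧ j ≤ 2 ^ c ∧ ∃ a ∈ dom (F i), π i j a ∈ dom (F j) := by
  classical
  obtain ⟨i, hi, j, hj, hij, hK⟩ : ∃ i ∈ range (2 ^ c + 1), ∃ j ∈ range (2 ^ c + 1), i ≠ j ∧
      cols (F i) (dom (F i)) (asg (F i)) = cols (F j) (dom (F j)) (asg (F j)) := by
    apply Finset.exists_ne_map_eq_of_card_lt_of_maps_to (t := univ)
    · simp [Fintype.card_finset]
    · intro i _
      exact Finset.mem_coe.2 (Finset.mem_univ _)
  wlog hlt : i < j generalizing i j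
  · exact this j hj i hi hij.symm hK.symm (by omega)
  have hj' : j ≤ 2 ^ c := by
    have := Finset.mem_range.1 hj
    omega
  have hinj' := hinj i j hlt hj'
  have hπ' := hπ i j hlt hj'
  -- the pushforward of the partial assignment
  let b : Fin n → Bool := fun v => if h : ∃ k ∈ dom (F i), π i j k = v then asg (F i) h.choose
    else true
  have hb : ∀ k ∈ dom (F i), b (π i j k) = asg (F i) k := by
    intro k hk
    have h : ∃ k' ∈ dom (F i), π i j k' = π i j k := ⟨k, hk, rfl⟩
    have h1 : h.choose = k := hinj' h.choose_spec.1 hk h.choose_spec.2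
    simp only [b, dif_pos h, h1]
  have hlev : lev (F i) = lev (F j) := by
    have h1 := cols_card (F i)
    have h2 := cols_card (F j)
    rw [hK] at h1
    have h3 := lev_lt (F i)
    have h4 := lev_lt (F j)
    omega
  have hs : ((dom (F i)).image (π i j)).card ≤ sz c (lev (F j)) := by
    rw [← hlev]
    exact Finset.card_image_le.trans (dom_card (F i))
  have hsub : cols (F j) ((dom (F i)).image (π i j)) b ⊆ cols (F j) (dom (F j)) (asg (F j)) := by
    rw [← hK]
    intro k hk
    obtain ⟨z, hz, rfl⟩ := mem_cols.1 hk
    refine mem_cols.2 ⟨z ∘ π i j, fun k hk => ?_, ?_⟩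
    · show z (π i j k) = _
      rw [hz _ (Finset.mem_image_of_mem _ hk), hb k hk]
    · rw [hπ']
  have heq : cols (F j) ((dom (F i)).image (π i j)) b = cols (F j) (dom (F j)) (asg (F j)) := by
    apply Finset.eq_of_subset_of_card_le hsub
    rw [cols_card]
    exact card_of_small hs
  have := overlap (hF j hj') hs (dom_card (F j)) heq (cols_card (F j))
  rw [Finset.not_disjoint_iff] at this
  obtain ⟨v, hv, hv'⟩ := this
  obtain ⟨a, ha, rfl⟩ := Finset.mem_image.1 hv
  exact ⟨i, j, hlt, hj', a, ha, hv'⟩

theorem dom_card_le (F : (Fin n → Bool) → Fin c) : (dom F).card ≤ sz c c :=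
  (dom_card F).trans (sz_mono c (lev_lt F).le)

end Pool.Agent.Helper67.TMI
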